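import Mathlib
import Pool.Agent.Helper610.Bohr.Basic

set_option autoImplicit false

open Metric Complex
open Pool.Agent.Helper610.Bohr

namespace Pool.Agent.Results.MP_dfd3b8_an.NotSharp

/-- `f(z)/z`, with the value `1` at `z = 0`. -/
noncomputable def quot (f : ℂ → ℂ) (z : ℂ) : ℂ := if z = 0 then 1 else f z / z

/-- `z f'(z)/f(z)`, with the value `1` at `z = 0`. -/
noncomputable def logder (f : ℂ → ℂ) (z : ℂ) : ℂ := if z = 0 then 1 else z * deriv f z / f z

/-- `g_{α,β}(z) = α f(z)/z + β z f'(z)/f(z) + (1-α-β) (1 + z f''(z)/f'(z))`. -/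
noncomputable def g (α β : ℝ) (f : ℂ → ℂ) (z : ℂ) : ℂ :=
  α * quot f z + β * logder f z + (1 - α - β) * (1 + z * deriv (deriv f) z / deriv f z)

/-- The class `M_{α,β}`: `f` is holomorphic on the unit disc, `f(0) = 0`, `f'(0) = 1`, the function
`g_{α,β}` is defined on the whole disc (the denominators that occur do not vanish), and
`Re g_{α,β}(z) > (α+β)/2` for all `z` in the disc. -/
def M (α β : ℝ) : Set (ℂ → ℂ) :=
  {f | DifferentiableOn ℂ f (ball 0 1) ∧ f 0 = 0 ∧ deriv f 0 = 1 ∧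
    (β ≠ 0 → ∀ z ∈ ball (0 : ℂ) 1, z ≠ 0 → f z ≠ 0) ∧
    (1 - α - β ≠ 0 → ∀ z ∈ ball (0 : ℂ) 1, deriv f z ≠ 0) ∧
    ∀ z ∈ ball (0 : ℂ) 1, (α + β) / 2 < (g α β f z).re}

/-- The Taylor coefficient `a_k` of `f` at the origin. -/
noncomputable def a (f : ℂ → ℂ) (k : ℕ) : ℂ := iteratedDeriv k f 0 / (k.factorial : ℂ)

/-- The Fekete–Szegő functional `Φ(f,λ) = a₃ - λ a₂²`. -/
noncomputable def Phi (f : ℂ → ℂ) (lam : ℂ) : ℂ := a f 3 - lam * a f 2 ^ 2

/-- `μ(α,β) = (2-α-β)/(6-5α-4β)`. -/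
noncomputable def mu (α β : ℝ) : ℝ := (2 - α - β) / (6 - 5 * α - 4 * β)

lemma coeff_deriv (f : ℂ → ℂ) (n : ℕ) : coeff (deriv f) n = (n + 1) * coeff f (n + 1) := by
  unfold coeff
  rw [iteratedDeriv_succ', Nat.factorial_succ]
  have h1 : ((n.factorial : ℕ) : ℂ) ≠ 0 := by exact_mod_cast n.factorial_ne_zero
  have h2 : ((n : ℂ) + 1) ≠ 0 := by exact_mod_cast n.succ_ne_zero
  push_cast
  field_simp

/-- The algebra: the coefficient relations up to order four force a relation between the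
coefficients of `ω`. -/
lemma algebra {A P S w : ℕ → ℂ} {b : ℕ → ℂ} (hb1 : b 1 = 1)
    (hA : ∀ n, A n = b (n + 1)) (hP : ∀ n : ℕ, P n = (n + 1) * b (n + 1))
    (hS : ∀ n : ℕ, S n = n * (n + 1) * b (n + 1)) (hw0 : w 0 = 0)
    (h : ∀ n, conv (fun k => 5 * conv P P k - conv A (fun j => P j + S j) k)
      (fun k => (if k = 0 then 1 else 0) - w k) n =
      conv (fun k => (if k = 0 then 4 else 0) - w k) (conv A P) n) :
    b 2 = w 1 ∧ b 3 = w 1 ^ 2 + 3 / 4 * w 2 ∧
      w 4 - 2 * w 1 * w 3 - w 2 ^ 2 / 2 + w 1 ^ 2 * w 2 = 0 := by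
  have h1 := h 1
  have h2 := h 2
  have h3 := h 3
  have h4 := h 4
  simp only [conv, Finset.Nat.antidiagonal_succ, Finset.Nat.antidiagonal_zero,
    Finset.sum_cons, Finset.map_singleton, Finset.sum_singleton,
    Finset.map_cons, Function.Embedding.prodMap, Function.Embedding.coeFn_mk,
    Function.Embedding.refl_apply, Prod.map, Nat.succ_eq_add_one, hA, hP, hS, hw0, hb1] at h1 h2 h3 h4
  norm_num [hb1] at h1 h2 h3 h4
  have e1 : b 2 = w 1 := by linear_combination (1 / 3) * h1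
  rw [e1] at h2 h3 h4
  have e2 : b 3 = w 1 ^ 2 + 3 / 4 * w 2 := by linear_combination (1 / 4) * h2
  rw [e2] at h3 h4
  have e3 : b 4 = w 3 + 5 / 4 * w 1 * w 2 + w 1 ^ 3 := by linear_combination (1 / 3) * h3
  rw [e3] at h4
  refine ⟨e1, e2, ?_⟩
  linear_combination (-1 / 3) * h4

/-- The bound on the second coefficient of `ω`. -/
lemma estimate {w1 w2 w3 w4 : ℂ} (hs : ‖w1‖ ^ 2 + ‖w2‖ ^ 2 + ‖w3‖ ^ 2 + ‖w4‖ ^ 2 ≤ 1)
    (h : w4 - 2 * w1 * w3 - w2 ^ 2 / 2 + w1 ^ 2 * w2 = 0) : ‖w2‖ ≤ 49 / 50 := by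
  by_contra hcon
  push Not at hcon
  have h0 : w2 ^ 2 = 2 * w4 + -(4 * (w1 * w3)) + 2 * (w1 ^ 2 * w2) := by
    linear_combination -2 * h
  have h1 : ‖w2‖ ^ 2 ≤ 2 * ‖w4‖ + 4 * (‖w1‖ * ‖w3‖) + 2 * (‖w1‖ ^ 2 * ‖w2‖) := by
    rw [← norm_pow, h0]
    refine (norm_add₃_le).trans ?_
    simp only [norm_mul, norm_neg, norm_pow, Complex.norm_ofNat]
    exact le_refl _
  have n1 := norm_nonneg w1
  have n2 := norm_nonneg w2
  have n3 := norm_nonneg w3
  have n4 := norm_nonneg w4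
  have hw2 : ‖w2‖ ≤ 1 := by nlinarith
  have hs' : ‖w1‖ ^ 2 + ‖w3‖ ^ 2 + ‖w4‖ ^ 2 ≤ 4 / 100 := by nlinarith
  have hw4 : ‖w4‖ ≤ 2 / 10 := by nlinarith
  have h13 : ‖w1‖ * ‖w3‖ ≤ 2 / 100 := by nlinarith [sq_nonneg (‖w1‖ - ‖w3‖)]
  have h12 : ‖w1‖ ^ 2 * ‖w2‖ ≤ 4 / 100 := by nlinarith [sq_nonneg ‖w1‖, sq_nonneg ‖w3‖, sq_nonneg ‖w4‖]
  nlinarith

lemma main {f : ℂ → ℂ} (hf : f ∈ M 0 (5 / 4)) : ‖a f 3 - a f 2 ^ 2‖ ≤ 147 / 200 := by
  obtain ⟨hd, h0, h1, hne, hne', hre⟩ := hf
  have hne := hne (by norm_num)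
  have hne' := hne' (by norm_num)
  have hopen : IsOpen (ball (0 : ℂ) 1) := isOpen_ball
  have h0mem : (0 : ℂ) ∈ ball (0 : ℂ) 1 := mem_ball_self one_pos
  -- the functions
  set F : ℂ → ℂ := dslope f 0 with hF
  set p : ℂ → ℂ := deriv f with hp
  set s : ℂ → ℂ := fun z => z * deriv p z with hs
  have hFd : DifferentiableOn ℂ F (ball 0 1) :=
    (Complex.differentiableOn_dslope (hopen.mem_nhds h0mem)).mpr hd
  have hpd : DifferentiableOn ℂ p (ball 0 1) := hd.deriv hopen
  have hdpd : DifferentiableOn ℂ (deriv p) (ball 0 1) := hpd.deriv hopen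
  have hsd : DifferentiableOn ℂ s (ball 0 1) := differentiableOn_id.mul hdpd
  have hF0 : F 0 = 1 := by rw [hF, dslope_same]; exact h1
  have hfF : ∀ z, f z = z * F z := by
    intro z
    by_cases hz : z = 0
    · rw [hz, h0, zero_mul]
    · rw [hF, dslope_of_ne _ hz, slope_def_field, h0, sub_zero, sub_zero]
      field_simp
  have hFne : ∀ z ∈ ball (0 : ℂ) 1, F z ≠ 0 := by
    intro z hz
    by_cases hz0 : z = 0
    · rw [hz0, hF0]; exact one_ne_zero
    · intro h
      apply hne z hz hz0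
      rw [hfF, h, mul_zero]
  set G : ℂ → ℂ := fun z => 5 / 4 * (p z / F z) - 1 / 4 * (1 + s z / p z) with hG
  have hGg : ∀ z ∈ ball (0 : ℂ) 1, g 0 (5 / 4) f z = G z := by
    intro z hz
    have e1 : logder f z = p z / F z := by
      unfold logder
      split_ifs with hz0
      · rw [hz0, hF0, h1, div_one]
      · rw [hfF z]
        have := hFne z hz
        field_simp
        rfl
    unfold g
    rw [e1]
    simp only [hG, hs]
    push_cast
    ring
  have hGd : DifferentiableOn ℂ G (ball 0 1) := by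
    have q1 : DifferentiableOn ℂ (fun z => p z / F z) (ball 0 1) := hpd.div hFd hFne
    have q2 : DifferentiableOn ℂ (fun z => s z / p z) (ball 0 1) := hsd.div hpd hne'
    exact (q1.const_mul _).sub ((q2.const_add _).const_mul _)
  have hGre : ∀ z ∈ ball (0 : ℂ) 1, 5 / 8 < (G z).re := by
    intro z hz
    have := hre z hz
    rw [hGg z hz] at this
    norm_num at this
    exact this
  have hden : ∀ z ∈ ball (0 : ℂ) 1, 4 * G z - 1 ≠ 0 := by
    intro z hz h
    have h2 := congrArg Complex.re h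
    have h3 := hGre z hz
    simp only [Complex.sub_re, Complex.mul_re, Complex.re_ofNat, Complex.im_ofNat, zero_mul,
      sub_zero, Complex.one_re, Complex.zero_re] at h2
    linarith
  set ω : ℂ → ℂ := fun z => (4 * G z - 4) / (4 * G z - 1) with hω
  have hωd : DifferentiableOn ℂ ω (ball 0 1) :=
    ((hGd.const_mul _).sub_const _).div ((hGd.const_mul _).sub_const _) hden
  have hωb : ∀ z : ℂ, ‖z‖ < 1 → ‖ω z‖ ≤ 1 := by
    intro z hz
    have hz' : z ∈ ball (0 : ℂ) 1 := by simpa using hz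
    have h3 := hGre z hz'
    rw [hω]
    simp only [norm_div]
    rw [div_le_one (norm_pos_iff.mpr (hden z hz'))]
    rw [← abs_of_nonneg (norm_nonneg (4 * G z - 4)), ← abs_of_nonneg (norm_nonneg (4 * G z - 1)),
      ← sq_le_sq, ← Complex.normSq_eq_norm_sq, ← Complex.normSq_eq_norm_sq, Complex.normSq_apply,
      Complex.normSq_apply]
    simp only [Complex.sub_re, Complex.mul_re, Complex.re_ofNat, Complex.im_ofNat, zero_mul,
      sub_zero, Complex.one_re, Complex.sub_im, Complex.mul_im, Complex.one_im, add_zero]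
    nlinarith
  have hω0 : ω 0 = 0 := by
    have e : G 0 = 1 := by
      simp only [hG, hs, hF0, h1]
      norm_num
    simp only [hω, e]
    norm_num
  -- power series
  have pF : PS F (coeff F) := PS.of_diff hFd
  have pp : PS p (coeff p) := PS.of_diff hpd
  have pdp : PS (deriv p) (coeff (deriv p)) := PS.of_diff hdpd
  have ps : PS s (shiftSeq (coeff (deriv p))) := pdp.shift
  have pω : PS ω (coeff ω) := PS.of_diff hωd
  have pf : PS f (coeff f) := PS.of_diff hd
  have pf' : PS f (shiftSeq (coeff F)) := (pF.shift).congr (fun z _ => hfF z)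
  have ef := PS.unique pf pf'
  have hA : ∀ n, coeff F n = coeff f (n + 1) := by
    intro n
    rw [ef]
    rfl
  have hP : ∀ n : ℕ, coeff p n = (n + 1) * coeff f (n + 1) := coeff_deriv f
  have hS : ∀ n : ℕ, shiftSeq (coeff (deriv p)) n = n * (n + 1) * coeff f (n + 1) := by
    intro n
    cases n with
    | zero => simp [shiftSeq]
    | succ m =>
      simp only [shiftSeq]
      rw [coeff_deriv, hP]
      push_cast
      ring
  have hw0 : coeff ω 0 = 0 := by
    simp [coeff, hω0]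
  have hb1 : coeff f 1 = 1 := by
    have : deriv f 0 = 1 := h1
    simp [coeff, iteratedDeriv_one, this]
  -- the identity
  have hid : ∀ z : ℂ, ‖z‖ < 1 → (5 * (p z * p z) - F z * (p z + s z)) * (1 - ω z) =
      (4 - ω z) * (F z * p z) := by
    intro z hz
    have hz' : z ∈ ball (0 : ℂ) 1 := by simpa using hz
    have g1 : 5 * (p z * p z) - F z * (p z + s z) = 4 * (F z * p z) * G z := by
      simp only [hG]
      have := hFne z hz'
      have := hne' z hz'
      field_simp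
    have g2 : 4 * G z * (1 - ω z) = 4 - ω z := by
      simp only [hω]
      have := hden z hz'
      field_simp
      ring
    rw [g1, ← g2]
    ring
  have pL := ((pp.mul pp).const_mul 5).sub (pF.mul (pp.add ps))
  have pL2 := pL.mul ((PS.const 1).sub pω)
  have pR := ((PS.const 4).sub pω).mul (pF.mul pp)
  have pL3 := pR.congr hid
  have hconv := PS.unique pL2 pL3
  obtain ⟨e1, e2, e3⟩ := algebra (A := coeff F) (P := coeff p)
    (S := shiftSeq (coeff (deriv p))) (w := coeff ω) (b := coeff f) hb1 hA hP hS hw0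
    (fun n => congrFun hconv n)
  have hpar := pω.sum_sq_le_one hωd hωb 5
  simp only [Finset.sum_range_succ, Finset.sum_range_zero, hw0, norm_zero] at hpar
  have hest := estimate (by linarith) e3
  have e4 : a f 3 - a f 2 ^ 2 = 3 / 4 * coeff ω 2 := by
    have q3 : a f 3 = coeff f 3 := rfl
    have q2 : a f 2 = coeff f 2 := rfl
    rw [q3, q2, e1, e2]
    ring
  rw [e4, norm_mul]
  have : ‖(3 / 4 : ℂ)‖ = 3 / 4 := by rw [norm_div]; simp
  rw [this]
  linarith

lemma id_mem : (fun z : ℂ => z) ∈ M 0 (5 / 4) := by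
  have hd : deriv (fun z : ℂ => z) = fun _ => 1 := by
    funext z
    exact deriv_id z
  refine ⟨differentiableOn_id, rfl, by rw [hd], fun _ z _ hz => hz, fun _ z _ => by rw [hd]; simp,
    ?_⟩
  intro z _
  unfold g quot logder
  rw [hd]
  by_cases hz : z = 0
  · simp [hz]
    norm_num
  · simp [hz]
    norm_num

/-- The bound is not sharp for every `(α,β) ∈ R`: there are `(α,β) ∈ R` (namely `(0, 5/4)`) and
`λ` (namely `1`) such that the values `|Φ(f,λ)|`, `f ∈ M_{α,β}`, are bounded by a constant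
strictly smaller than `max(μ, |1-λ|)`. -/
theorem result : ∃ α β : ℝ, α + β < 2 ∧ 5 * α + 4 * β < 6 ∧ (M α β).Nonempty ∧
    ∃ lam : ℂ, ∃ c : ℝ, c < max (mu α β) ‖1 - lam‖ ∧ ∀ f ∈ M α β, ‖Phi f lam‖ ≤ c := by
  refine ⟨0, 5 / 4, by norm_num, by norm_num, ⟨_, id_mem⟩, 1, 147 / 200, ?_, ?_⟩
  · apply lt_max_of_lt_left
    unfold mu
    norm_num
  · intro f hf
    unfold Phi
    rw [one_mul]
    exact main hf

end Pool.Agent.Results.MP_dfd3b8_an.NotSharp
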